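import Pool.Agent.Q88.PS.Fin
import Pool.Agent.Q88.PS.Rat
import Pool.Agent.Q184.PS_BASE
import Pool.Agent.Q164.PS_SEP
import Pool.Agent.Q164.PS_SEPW
import Pool.Agent.Q154.PS_STEP
import Pool.Agent.Q184.PS_INTV
import Pool.Agent.Q154.PS_HIT
import Pool.Agent.Q166.PS_HSC
import Pool.Agent.Q265.PS_HFIN
import Pool.Agent.Q110.PS_HPOS
import Pool.Agent.Q265.PS_PRE
import Pool.Agent.Q61.PS_PCK
import Pool.Agent.Q192.PS_ANT
import Pool.Agent.Q192.PS_SLC
import Pool.Agent.Q176.PS_AE
import Pool.Agent.Q176.PS_TIN
import Pool.Agent.Q110.PS_PER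
import Pool.Agent.Q299.PS_DEC
import Pool.Agent.Q299.PS_KEY
import Pool.Agent.Q299.PS_POS
import Pool.Agent.Q247.PS_DEN
import Pool.Agent.Q176.PS_NICE
import Pool.Agent.Q261.PS_KAP
import Pool.Agent.Q261.PS_VAR
import Pool.Agent.Q261.PS_UNI
import Pool.Agent.Q238.PS.Sng
import Pool.Agent.Q184.PS_SGO
import Pool.Agent.Q238.PS.Sgm
import Pool.Agent.Q238.PS.Ugo
import Pool.Agent.Q121.PS_UGM
import Pool.Agent.Q176.PS_UGN
import Pool.Agent.Q121.PS_BAI

/-!
# Infinite packing measure of the slices of a self-similar set with singular projection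

There are a self-similar set `K` in the plane without rotations and reflections which satisfies the
strong separation condition, of dimension `s = 4 / 3`, and a direction such that the projection of `K`
has positive length, the projection of `ℋ^s` on `K` is singular, and almost every slice has infinite
`(s - 1)`-dimensional packing measure.

`K` consists of the points `∑ 8 ^ (-n-1) (a n, b n)` with `a n ∈ {0, 1, 2, 3}`, `b n ∈ {0, 1, 4, 5}`.
The directions `(1, lam)` with `lam = p / q`, `p`, `q` odd, have absolutely continuous projections with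
bounded densities and slices of infinite packing measure, those with `lam = 2 p / q` have singular
projections. The direction of the theorem is found with Baire's theorem.
-/

set_option autoImplicit false

open MeasureTheory Set
open scoped ENNReal

noncomputable section

namespace Pool.Agent.Results.MP_203158_an.SingularProjection

/-- The plane with the Euclidean norm. -/
abbrev Plane := EuclideanSpace ℝ (Fin 2)

/-- `K` is a rotation and reflection free self-similar set (nonempty, compact, `K = ⋃ ψ_j (K)` with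
`ψ_j (x) = ρ_j x + c_j`, `0 < ρ_j < 1`) with the strong separation condition (the `ψ_j (K)` are
pairwise disjoint). -/
def SelfSimilarSSC (K : Set Plane) : Prop :=
  K.Nonempty ∧ IsCompact K ∧
    ∃ (q : ℕ) (ρ : Fin q → ℝ) (c : Fin q → Plane), (∀ j, ρ j ∈ Ioo (0 : ℝ) 1) ∧
      K = ⋃ j, (fun x => ρ j • x + c j) '' K ∧
      ∀ i j, i ≠ j → Disjoint ((fun x => ρ i • x + c i) '' K) ((fun x => ρ j • x + c j) '' K)

/-- The orthogonal projection onto the line spanned by the unit vector `u`, identified with `ℝ`. -/
def proj (u x : Plane) : ℝ := inner ℝ u x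

/-- `I` is a packing of `F`: finitely many pairwise disjoint closed balls (pairs of centre and radius)
with centres in `F` and positive radii at most `δ`. -/
def IsPacking (δ : ℝ) (F : Set Plane) (I : Finset (Plane × ℝ)) : Prop :=
  (∀ p ∈ I, p.1 ∈ F ∧ 0 < p.2 ∧ p.2 ≤ δ) ∧
    ∀ p ∈ I, ∀ q ∈ I, p ≠ q → Disjoint (Metric.closedBall p.1 p.2) (Metric.closedBall q.1 q.2)

/-- The packing premeasure: the limit for `δ → 0` (infimum over `δ > 0`) of the supremum of
`∑ (2 r_i) ^ a` over the packings of `F` with radii at most `δ`. -/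
def prePacking (a : ℝ) (F : Set Plane) : ℝ≥0∞ :=
  ⨅ (δ : ℝ) (_ : 0 < δ), ⨆ (I : Finset (Plane × ℝ)) (_ : IsPacking δ F I),
    ∑ p ∈ I, ENNReal.ofReal (2 * p.2) ^ a

/-- The `a`-dimensional packing measure of `E`: the infimum of `∑ prePacking a (F i)` over the
countable covers of `E`. -/
def packing (a : ℝ) (E : Set Plane) : ℝ≥0∞ :=
  ⨅ (F : ℕ → Set Plane) (_ : E ⊆ ⋃ i, F i), ∑' i, prePacking a (F i)

/-- **Theorem.** There are a self-similar set `K` in the plane (rotation and reflection free, strong
separation condition), a number `s > 1` and a unit vector `u`, such that `K` has Hausdorff dimension `s`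
and `0 < ℋ^s (K) < ∞`, the projection of `K` onto the line spanned by `u` has positive length, the
projection of the restriction of `ℋ^s` to `K` is singular, and for almost every `t` in the projection
the slice of `K` over `t` has infinite `(s - 1)`-dimensional packing measure. -/
theorem result : ∃ (K : Set Plane) (u : Plane) (s : ℝ),
    SelfSimilarSSC K ∧ ‖u‖ = 1 ∧ 1 < s ∧ dimH K = ENNReal.ofReal s ∧
    0 < μH[s] K ∧ μH[s] K < ⊤ ∧
    0 < volume (proj u '' K) ∧
    ((μH[s] : Measure Plane).restrict K).map (proj u) ⟂ₘ volume ∧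
    ∀ᵐ t ∂(volume.restrict (proj u '' K)), packing (s - 1) (K ∩ proj u ⁻¹' {t}) = ⊤ := by
  have base := Pool.Agent.Q88.PS.base
  have sep := Pool.Agent.Q164.PS.sep base
  have sepw := Pool.Agent.Q164.PS.sepw base sep
  have step := Pool.Agent.Q154.PSJ.step
  have intv := Pool.Agent.Q88.PS.intv base step
  have hit := Pool.Agent.Q154.PSJ.hit base intv
  have hsc := Pool.Agent.Q88.PS.hsc
  have hfin := Pool.Agent.Q265.PSHFIN.hfin base
  have hpos := Pool.Agent.Q110.PSh.hpos base sep
  have pre := Pool.Agent.Q265.PSPRE.pre sepw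
  have pck := Pool.Agent.Q61.PSPCK.pck base pre
  have ant := Pool.Agent.Q192.PSA.ant
  have slc := Pool.Agent.Q192.PSS.slc base step hit ant pck
  have ae1 := Pool.Agent.Q88.PS.ae1
  have tin := Pool.Agent.Q88.PS.tin
  have per := Pool.Agent.Q110.PSj.per
  have bd := Pool.Agent.Q110.PSj.bd per
  have dec := Pool.Agent.Q299.PS.dec tin
  have key := Pool.Agent.Q299.PS.key
  have pos := Pool.Agent.Q299.PS.pos tin dec key
  have den := Pool.Agent.Q247.PSDen.den step
  have nice := Pool.Agent.Q88.PS.nice bd pos den
  have kap := Pool.Agent.Q261.PSK.kapl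
  have var := Pool.Agent.Q261.PSV.var
  have uni := Pool.Agent.Q261.PSU.uni
  have sng := Pool.Agent.Q238.PS.sng kap var uni
  have sgo := Pool.Agent.Q88.PS.sgo
  have sgm := Pool.Agent.Q238.PS.sgm base hsc hfin hit
  have ugo := Pool.Agent.Q238.PS.ugo
  have ugm := Pool.Agent.Q121.PS.ugm
  have ugn := Pool.Agent.Q88.PS.ugn nice
  have rat := Pool.Agent.Q88.PS.rat
  have bai := Pool.Agent.Q121.PS.bai sng sgo ugo ugn rat
  exact Pool.Agent.Q88.PS.assemble base sep hfin hpos intv slc ae1 sgm ugm bai

end Pool.Agent.Results.MP_203158_an.SingularProjection
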